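import Mathlib

set_option autoImplicit false

namespace Pool.Agent.Results.MP_b9b46b_al.LGIffQuadratic

universe u v w

/-- A commutative ring with a lattice order is an f-ring if it is a lattice-ordered ring and a
subdirect product (as a ring and as a lattice) of totally ordered rings. -/
def IsFRing (A : Type u) [CommRing A] [Lattice A] : Prop :=
  (∀ a b c : A, a ≤ b → a + c ≤ b + c) ∧ (∀ a b : A, 0 ≤ a → 0 ≤ b → 0 ≤ a * b) ∧
  ∃ (ι : Type v) (R : ι → Type w) (_ : ∀ i, CommRing (R i)) (_ : ∀ i, LinearOrder (R i))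
    (_ : ∀ i, IsOrderedRing (R i)) (φ : ∀ i, A →+* R i),
    (∀ i, Function.Surjective (φ i)) ∧
    (∀ i a b, φ i (a ⊔ b) = max (φ i a) (φ i b)) ∧
    (∀ i a b, φ i (a ⊓ b) = min (φ i a) (φ i b)) ∧
    (∀ a b, (∀ i, φ i a = φ i b) → a = b)

/-- The local-global property. -/
def HasLG (A : Type u) [CommRing A] : Prop :=
  ∀ (n : ℕ), 1 ≤ n → ∀ f : MvPolynomial (Fin n) A,
    (∀ (M : Ideal A) [M.IsMaximal], ∃ x : Fin n → Localization.AtPrime M,
      IsUnit (MvPolynomial.aeval x f)) →
    ∃ y : Fin n → A, IsUnit (MvPolynomial.eval y f)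

/-- Condition (b). -/
def QuadUnit (A : Type u) [CommRing A] [Lattice A] : Prop :=
  ∀ a b : A, 0 ≤ a → 0 ≤ b → Ideal.span {a} ⊔ Ideal.span {b} = ⊤ →
    ∃ u : A, IsUnit (a - b * u ^ 2)

theorem eval_sub_mem {A : Type u} [CommRing A] {n : ℕ} (f : MvPolynomial (Fin n) A)
    (N : Ideal A) (y z : Fin n → A) (h : ∀ i, y i - z i ∈ N) :
    MvPolynomial.eval y f - MvPolynomial.eval z f ∈ N := by
  rw [← Ideal.Quotient.eq]
  have h1 : (fun i => Ideal.Quotient.mk N (y i)) = fun i => Ideal.Quotient.mk N (z i) := by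
    funext i
    exact Ideal.Quotient.eq.2 (h i)
  have h2 : ∀ x : Fin n → A, Ideal.Quotient.mk N (MvPolynomial.eval x f) =
      MvPolynomial.eval₂ (Ideal.Quotient.mk N) (fun i => Ideal.Quotient.mk N (x i)) f := by
    intro x
    have := MvPolynomial.eval₂_comp_left (Ideal.Quotient.mk N) (RingHom.id A) x f
    rw [RingHom.comp_id] at this
    exact this
  rw [h2, h2, h1]

/-- A local unit value gives a global point whose value avoids the maximal ideal. -/
theorem exists_not_mem {A : Type u} [CommRing A] {n : ℕ} (f : MvPolynomial (Fin n) A)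
    (M : Ideal A) [M.IsMaximal] (x : Fin n → Localization.AtPrime M)
    (hx : IsUnit (MvPolynomial.aeval x f)) :
    ∃ y : Fin n → A, MvPolynomial.eval y f ∉ M := by
  have hs : ∀ z : Localization.AtPrime M, ∃ a : A,
      z - algebraMap A _ a ∈ IsLocalRing.maximalIdeal (Localization.AtPrime M) := by
    intro z
    obtain ⟨⟨a, s⟩, rfl⟩ := IsLocalization.mk'_surjective M.primeCompl z
    have hs : (s : A) ∉ M := s.2
    obtain ⟨r, m, hm, e⟩ := Ideal.IsMaximal.exists_inv (inferInstance : M.IsMaximal) hs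
    refine ⟨a * r, ?_⟩
    have h1 : IsLocalization.mk' (Localization.AtPrime M) a s - algebraMap A _ (a * r) =
        IsLocalization.mk' (Localization.AtPrime M) a s * algebraMap A _ m := by
      have h2 : algebraMap A (Localization.AtPrime M) a =
          IsLocalization.mk' (Localization.AtPrime M) a s * algebraMap A _ (s : A) :=
        (IsLocalization.mk'_spec _ a s).symm
      have h3 : algebraMap A (Localization.AtPrime M) m = 1 - algebraMap A _ r * algebraMap A _ (s : A) := by
        rw [← map_mul, ← map_one (algebraMap A (Localization.AtPrime M)), ← e, map_add]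
        ring
      rw [map_mul, h3, h2]
      ring
    simp only
    rw [h1]
    exact Ideal.mul_mem_left _ _
      ((IsLocalization.AtPrime.to_map_mem_maximal_iff (Localization.AtPrime M) M m).2 hm)
  choose y hy using fun i => hs (x i)
  refine ⟨y, fun hm => ?_⟩
  have h1 := eval_sub_mem (MvPolynomial.map (algebraMap A (Localization.AtPrime M)) f) _ x
    (fun i => algebraMap A _ (y i)) hy
  have h2 : MvPolynomial.eval x (MvPolynomial.map (algebraMap A (Localization.AtPrime M)) f) =
      MvPolynomial.aeval x f := by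
    rw [MvPolynomial.eval_map, MvPolynomial.aeval_def]
  have h3 : MvPolynomial.eval (fun i => algebraMap A (Localization.AtPrime M) (y i))
      (MvPolynomial.map (algebraMap A (Localization.AtPrime M)) f) =
      algebraMap A _ (MvPolynomial.eval y f) := by
    rw [MvPolynomial.eval_map]
    have := MvPolynomial.eval₂_comp_left (algebraMap A (Localization.AtPrime M)) (RingHom.id A) y f
    rw [RingHom.comp_id] at this
    exact this.symm
  rw [h2, h3] at h1
  have h4 := (IsLocalization.AtPrime.to_map_mem_maximal_iff (Localization.AtPrime M) M _).2 hm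
  have h5 : MvPolynomial.aeval x f ∈ IsLocalRing.maximalIdeal (Localization.AtPrime M) := by
    have := Ideal.add_mem _ h1 h4
    simpa using this
  exact (IsLocalRing.mem_maximalIdeal _).1 h5 hx

/-- Gluing along idempotents. -/
theorem glue {A : Type u} [CommRing A] {n : ℕ} (f : MvPolynomial (Fin n) A)
    (h : ∀ M : Ideal A, M.IsMaximal → ∃ (e : A) (y : Fin n → A), e * e = e ∧ e ∉ M ∧
      ∀ N : Ideal A, N.IsMaximal → MvPolynomial.eval y f ∈ N → e ∈ N) :
    ∃ y : Fin n → A, IsUnit (MvPolynomial.eval y f) := by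
  let I : Ideal A :=
    { carrier := {a | ∃ (e : A) (y : Fin n → A), e * e = e ∧ a = a * e ∧
        ∀ N : Ideal A, N.IsMaximal → MvPolynomial.eval y f ∈ N → e ∈ N}
      zero_mem' := ⟨0, fun _ => 0, by simp, by simp, fun N _ _ => N.zero_mem⟩
      add_mem' := by
        rintro a b ⟨e1, y1, h1, ha, k1⟩ ⟨e2, y2, h2, hb, k2⟩
        refine ⟨e1 + e2 - e1 * e2, fun i => e1 * y1 i + (1 - e1) * y2 i, ?_, ?_, ?_⟩
        · linear_combination (1 - e2) ^ 2 * h1 + (1 - e1) * h2
        · linear_combination (1 - e2) * ha + (1 - e1) * hb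
        · intro N hN hm
          have h3 : e1 * (1 - e1) ∈ N := by
            have : e1 * (1 - e1) = 0 := by linear_combination -h1
            rw [this]
            exact N.zero_mem
          rcases hN.isPrime.mem_or_mem h3 with h4 | h4
          · have h5 := eval_sub_mem f N (fun i => e1 * y1 i + (1 - e1) * y2 i) y2 (fun i => by
              have : e1 * y1 i + (1 - e1) * y2 i - y2 i = e1 * (y1 i - y2 i) := by ring
              rw [this]
              exact N.mul_mem_right _ h4)
            have h6 : MvPolynomial.eval y2 f ∈ N := by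
              have := N.sub_mem hm h5
              simpa using this
            exact N.sub_mem (N.add_mem h4 (k2 N hN h6)) (N.mul_mem_right _ h4)
          · have h5 := eval_sub_mem f N (fun i => e1 * y1 i + (1 - e1) * y2 i) y1 (fun i => by
              have : e1 * y1 i + (1 - e1) * y2 i - y1 i = (1 - e1) * (y2 i - y1 i) := by ring
              rw [this]
              exact N.mul_mem_right _ h4)
            have h6 : MvPolynomial.eval y1 f ∈ N := by
              have := N.sub_mem hm h5
              simpa using this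
            have h7 := N.add_mem h4 (k1 N hN h6)
            simp only [sub_add_cancel] at h7
            exact absurd ((Ideal.eq_top_iff_one N).2 h7) hN.ne_top
      smul_mem' := by
        rintro c a ⟨e, y, h1, ha, k⟩
        refine ⟨e, y, h1, ?_, k⟩
        simp only [smul_eq_mul]
        linear_combination c * ha }
  have hI : I = ⊤ := by
    by_contra hne
    obtain ⟨M, hM, hle⟩ := Ideal.exists_le_maximal I hne
    obtain ⟨e, y, h1, h2, h3⟩ := h M hM
    exact h2 (hle ⟨e, y, h1, h1.symm, h3⟩)
  have h1 : (1 : A) ∈ I := hI ▸ Submodule.mem_top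
  obtain ⟨e, y, -, h2, h3⟩ := h1
  refine ⟨y, ?_⟩
  by_contra hu
  obtain ⟨M, hM, hm⟩ := exists_max_ideal_of_mem_nonunits hu
  have h4 := h3 M hM hm
  rw [one_mul] at h2
  rw [← h2] at h4
  exact hM.ne_top ((Ideal.eq_top_iff_one M).2 h4)

theorem exists_idem {A : Type u} [CommRing A] [Lattice A] (hA : IsFRing.{u, v, w} A)
    (hb : ∀ x : A, 1 < x → IsUnit x) (hq : QuadUnit A) (M : Ideal A) (hM : M.IsMaximal)
    (a : A) (ha : a ∉ M) :
    ∃ e : A, e * e = e ∧ e ∉ M ∧ ∀ N : Ideal A, N.IsMaximal → a ∈ N → e ∈ N := by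
  obtain ⟨-, -, ι, R, _, _, _, φ, -, hsup, -, hinj⟩ := hA
  have hle : ∀ x y : A, (∀ i, φ i x ≤ φ i y) → x ≤ y := by
    intro x y h
    rw [← sup_eq_right]
    apply hinj
    intro i
    rw [hsup, max_eq_right (h i)]
  have hle' : ∀ x y : A, x ≤ y → ∀ i, φ i x ≤ φ i y := by
    intro x y h i
    rw [← sup_eq_right] at h
    rw [← h, hsup]
    exact le_max_left _ _
  have habs : ∀ (x : A) i, φ i (x ⊔ -x) = |φ i x| := by
    intro x i
    rw [hsup, map_neg]
    rfl
  have habs2 : ∀ x : A, (x ⊔ -x) * (x ⊔ -x) = x * x := by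
    intro x
    apply hinj
    intro i
    rw [map_mul, map_mul, habs, abs_mul_abs_self]
  have hconv : ∀ N : Ideal A, N.IsMaximal → ∀ x y : A, 0 ≤ x → x ≤ y → y ∈ N → x ∈ N := by
    intro N hN x y h0 hxy hy
    by_contra hx
    obtain ⟨r, m, hm, e⟩ := hN.exists_inv hx
    have h1 : m ⊔ -m ∈ N := by
      have : (m ⊔ -m) * (m ⊔ -m) ∈ N := by
        rw [habs2]
        exact N.mul_mem_left _ hm
      exact (hN.isPrime.mem_or_mem this).elim id id
    have h2 : (r ⊔ -r) * y + (m ⊔ -m) ∈ N := N.add_mem (N.mul_mem_left _ hy) h1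
    have h3 : 1 ≤ (r ⊔ -r) * y + (m ⊔ -m) := by
      apply hle
      intro i
      rw [← e, map_add, map_add, map_mul, map_mul, habs, habs]
      have k0 : 0 ≤ φ i x := by simpa using hle' _ _ h0 i
      have k1 := hle' _ _ hxy i
      have k2 : φ i r * φ i x ≤ |φ i r| * φ i x := mul_le_mul_of_nonneg_right (le_abs_self _) k0
      have k3 : |φ i r| * φ i x ≤ |φ i r| * φ i y := mul_le_mul_of_nonneg_left k1 (abs_nonneg _)
      exact add_le_add (k2.trans k3) (le_abs_self _)
    have h4 : IsUnit ((r ⊔ -r) * y + (m ⊔ -m)) := by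
      rcases h3.eq_or_lt with h | h
      · rw [← h]
        exact isUnit_one
      · exact hb _ h
    exact hN.ne_top (Ideal.eq_top_of_isUnit_mem N h2 h4)
  have hsq : ∀ x : A, 0 ≤ x ^ 2 := by
    intro x
    apply hle
    intro i
    rw [map_zero, map_pow]
    exact sq_nonneg _
  obtain ⟨r, b, hbM, e⟩ := hM.exists_inv ha
  have hcop : IsCoprime a b := ⟨r, 1, by rw [one_mul]; exact e⟩
  have hcop2 : IsCoprime (a ^ 2) (b ^ 2) := hcop.pow
  obtain ⟨u, hu⟩ := hq (a ^ 2) (b ^ 2) (hsq a) (hsq b)
    ((Ideal.sup_eq_top_iff_isCoprime _ _).2 hcop2)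
  obtain ⟨z, hz⟩ : ∃ z, z = a ^ 2 - b ^ 2 * u ^ 2 := ⟨_, rfl⟩
  rw [← hz] at hu
  have hu2 : IsUnit (z ⊔ -z) := by
    have : IsUnit ((z ⊔ -z) * (z ⊔ -z)) := by
      rw [habs2]
      exact hu.mul hu
    exact isUnit_of_mul_isUnit_left this
  obtain ⟨c, hc⟩ := hu2.exists_right_inv
  have hp : (z ⊔ 0) * (z ⊔ 0) = (z ⊔ 0) * (z ⊔ -z) := by
    apply hinj
    intro i
    rw [map_mul, map_mul, habs, hsup, map_zero]
    rcases le_total (φ i z) 0 with h | h
    · rw [max_eq_right h, zero_mul, zero_mul]
    · rw [max_eq_left h, abs_of_nonneg h]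
  have hpn : z = (z ⊔ 0) - (-z ⊔ 0) := by
    apply hinj
    intro i
    rw [map_sub, hsup, hsup, map_zero, map_neg]
    rcases le_total (φ i z) 0 with h | h
    · rw [max_eq_right h, max_eq_left (neg_nonneg.2 h)]
      ring
    · rw [max_eq_left h, max_eq_right (neg_nonpos.2 h)]
      ring
  have h1 : z ⊔ 0 ≤ a ^ 2 := by
    apply sup_le _ (hsq a)
    apply hle
    intro i
    rw [hz, map_sub, ← mul_pow, map_pow (φ i) (b * u)]
    exact sub_le_self _ (sq_nonneg _)
  have h2 : -z ⊔ 0 ≤ (b * u) ^ 2 := by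
    apply sup_le _ (hsq _)
    apply hle
    intro i
    rw [hz, neg_sub, map_sub, ← mul_pow, map_pow (φ i) a]
    exact sub_le_self _ (sq_nonneg _)
  refine ⟨(z ⊔ 0) * c, ?_, ?_, ?_⟩
  · linear_combination c ^ 2 * hp + (z ⊔ 0) * c * hc
  · intro he
    have h3 : z ⊔ 0 ∈ M := by
      have : z ⊔ 0 = (z ⊔ 0) * c * (z ⊔ -z) := by linear_combination -(z ⊔ 0) * hc
      rw [this]
      exact M.mul_mem_right _ he
    have h4 : -z ⊔ 0 ∈ M := hconv M hM _ _ le_sup_right h2
      (Ideal.pow_mem_of_mem M (M.mul_mem_right u hbM) 2 (by norm_num))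
    have h5 : z ∈ M := by
      rw [hpn]
      exact M.sub_mem h3 h4
    exact hM.ne_top (Ideal.eq_top_of_isUnit_mem M h5 hu)
  · intro N hN haN
    exact N.mul_mem_right _ (hconv N hN _ _ le_sup_right h1
      (Ideal.pow_mem_of_mem N haN 2 (by norm_num)))

/-- In every commutative f-ring with bounded inversion, conditions (a) and (b) are equivalent. -/
theorem result (A : Type u) [CommRing A] [Lattice A] (hA : IsFRing.{u, v, w} A)
    (hb : ∀ x : A, 1 < x → IsUnit x) : HasLG A ↔ QuadUnit A := by
  constructor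
  · intro h a b _ _ hab
    obtain ⟨y, hy⟩ := h 1 le_rfl
      (MvPolynomial.C a - MvPolynomial.C b * MvPolynomial.X 0 ^ 2) (fun M hM => by
        by_cases ha : a ∈ M
        · refine ⟨fun _ => 1, ?_⟩
          have h1 : a - b ∉ M := by
            intro h2
            have h3 : b ∈ M := by simpa using M.sub_mem ha h2
            apply hM.ne_top
            rw [eq_top_iff, ← hab]
            exact sup_le ((Ideal.span_singleton_le_iff_mem M).2 ha)
              ((Ideal.span_singleton_le_iff_mem M).2 h3)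
          have h4 := (IsLocalization.AtPrime.isUnit_to_map_iff (Localization.AtPrime M) M
            (a - b)).2 h1
          simpa using h4
        · refine ⟨fun _ => 0, ?_⟩
          have h4 := (IsLocalization.AtPrime.isUnit_to_map_iff (Localization.AtPrime M) M a).2 ha
          simpa using h4)
    exact ⟨y 0, by simpa using hy⟩
  · intro hq n _ f hf
    apply glue
    intro M hM
    obtain ⟨x, hx⟩ := hf M
    obtain ⟨y, hy⟩ := exists_not_mem f M x hx
    obtain ⟨e, h1, h2, h3⟩ := exists_idem hA hb hq M hM _ hy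
    exact ⟨e, y, h1, h2, h3⟩

end Pool.Agent.Results.MP_b9b46b_al.LGIffQuadratic
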